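import Pool.Agent.H.MP_dc5a1d_an.D

set_option autoImplicit false

namespace Pool.Agent.Results.MP_dc5a1d_an.Char

open Filter Topology

theorem result (X : Type) [NormedAddCommGroup X] [NormedSpace ℝ X] [CompleteSpace X]
    (t : ℝ) (ht0 : 0 < t) (ht1 : t ≤ 1) :
    (∀ D : Set X, (∀ g ∈ D, ‖g‖ = 1) → Dense (Submodule.span ℝ D : Set X) →
      ∀ (f : X) (φ G : ℕ → X) (F : ℕ → StrongDual ℝ X), G 0 = 0 →
        (∀ m, f - G m ≠ 0 ∧ ‖F m‖ = 1 ∧ F m (f - G m) = ‖f - G m‖ ∧ φ m ∈ D ∧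
          (∀ g ∈ D, t * |F m g| ≤ |F m (φ m)|) ∧
          G (m + 1) ∈ Submodule.span ℝ (φ '' Set.Iic m) ∧
          ∀ y ∈ Submodule.span ℝ (φ '' Set.Iic m), ‖f - G (m + 1)‖ ≤ ‖f - y‖) →
        Tendsto (fun m => ‖f - G m‖) atTop (𝓝 0)) ↔
    ((∀ x : X, x ≠ 0 → ∀ F F' : StrongDual ℝ X, ‖F‖ = 1 → ‖F'‖ = 1 → F x = ‖x‖ → F' x = ‖x‖ →
        F = F') ∧
      ContinuousOn (fun F : WeakDual ℝ X => WeakDual.toStrongDual F)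
        {F | ‖WeakDual.toStrongDual F‖ = 1}) :=
  ⟨fun h => ⟨Pool.Agent.H.MP_dc5a1d_an.smooth_of_conv ht1 h,
    Pool.Agent.H.MP_dc5a1d_an.kadec_of_conv ht1 h⟩,
    fun h => Pool.Agent.H.MP_dc5a1d_an.conv_of ht0 h.1 h.2⟩

end Pool.Agent.Results.MP_dc5a1d_an.Char
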